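import Pool.Agent.W172.WL.Stm

set_option autoImplicit false

/-!
# WL-PROB: almost surely `g + Φ` is good
-/

open MeasureTheory Set
open scoped ENNReal NNReal

namespace Pool.Agent.W310.WL

open Pool.Agent.W172.WL

lemma meas_nu (hC : S_CONTF) (b : ℕ) (α : ℝ) (hb : 2 ≤ b) (hα : 0 < α) (hα1 : α < 1) (N n z : ℕ)
    (g : ℝ → ℝ) (hg : LipPer g) :
    StronglyMeasurable (fun q : Om × ℝ =>
      nuHat b α (fun x => g x + Phi b α N q.1 x) n z q.2) := by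
  have hc := hC b α N n z hb hα hα1 g hg
  have h3 : Continuous (fun r : (Om × ℝ) × ℝ => Complex.exp (Complex.I *
      ((r.1.2 * F b α (fun x => g x + Phi b α N r.1.1 x) n z r.2 : ℝ) : ℂ))) := by
    refine Complex.continuous_exp.comp (continuous_const.mul (Complex.continuous_ofReal.comp ?_))
    exact (continuous_snd.comp continuous_fst).mul
      (hc.comp ((continuous_fst.comp continuous_fst).prodMk continuous_snd))
  exact h3.stronglyMeasurable.integral_prod_right' (ν := volume.restrict (Icc (0 : ℝ) 1))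

lemma nu_le (b : ℕ) (α : ℝ) (g : ℝ → ℝ) (n z : ℕ) (ξ : ℝ) : ‖nuHat b α g n z ξ‖ ≤ 1 := by
  unfold nuHat
  have h := norm_setIntegral_le_of_norm_le_const (μ := volume) (s := Icc (0 : ℝ) 1) (C := 1)
    (f := fun u => Complex.exp (Complex.I * ((ξ * F b α g n z u : ℝ) : ℂ)))
    (by rw [Real.volume_Icc]; exact ENNReal.ofReal_lt_top)
    (fun x _ => by rw [Complex.norm_exp_I_mul_ofReal])
  simpa using h

/-- the probabilistic part -/
lemma absL (b : ℕ) (m : ℕ → ℕ) (Y : ℕ → ℕ → Om → ℝ → ℝ) (Bl : ℕ → Set ℝ) (V K w : ℕ → ℝ)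
    (hB : ∀ L, MeasurableSet (Bl L)) (hV : ∀ L, volume (Bl L) ≤ ENNReal.ofReal (V L))
    (hY : ∀ n z, Measurable (Function.uncurry (Y n z))) (h0 : ∀ n z ω ξ, 0 ≤ Y n z ω ξ)
    (h1 : ∀ n z ω ξ, Y n z ω ξ ≤ 1) (hK0 : ∀ L, 0 ≤ K L) (hw : ∀ L, 0 ≤ w L)
    (hb : 1 ≤ b)
    (hK : ∀ L n z, n ≤ m L → z < b ^ n → ∀ ξ ∈ Bl L, ∫ ω, Y n z ω ξ ∂Pr ≤ K L)
    (hsum : Summable (fun L => (((m L : ℝ) + 1) * (b : ℝ) ^ (m L)) * (w L * (K L * V L))))
    (hV0 : ∀ L, 0 ≤ V L) :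
    ∀ᵐ ω ∂Pr, ∃ S : ℝ, 0 ≤ S ∧ ∀ L n z, n ≤ m L → z < b ^ n →
      w L * ∫ ξ in Bl L, Y n z ω ξ ≤ S := by
  set S : Om → ℝ≥0∞ := fun ω => ∑' L, ∑ n ∈ Finset.range (m L + 1), ∑ z ∈ Finset.range (b ^ n),
    ENNReal.ofReal (w L) * ∫⁻ ξ in Bl L, ENNReal.ofReal (Y n z ω ξ) with hS
  have hYm : ∀ n z, Measurable (fun q : Om × ℝ => ENNReal.ofReal (Y n z q.1 q.2)) :=
    fun n z => (hY n z).ennreal_ofReal
  have hin : ∀ L n z, Measurable (fun ω => ∫⁻ ξ in Bl L, ENNReal.ofReal (Y n z ω ξ)) :=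
    fun L n z => (hYm n z).lintegral_prod_right'
  have hterm : ∀ L n z, Measurable (fun ω => ENNReal.ofReal (w L) *
      ∫⁻ ξ in Bl L, ENNReal.ofReal (Y n z ω ξ)) := fun L n z => (hin L n z).const_mul _
  have hLm : ∀ L, Measurable (fun ω => ∑ n ∈ Finset.range (m L + 1),
      ∑ z ∈ Finset.range (b ^ n), ENNReal.ofReal (w L) *
        ∫⁻ ξ in Bl L, ENNReal.ofReal (Y n z ω ξ)) := by
    intro L
    refine Finset.measurable_fun_sum _ fun n _ => Finset.measurable_fun_sum _ fun z _ => ?_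
    exact hterm L n z
  have hSm : Measurable S := Measurable.tsum hLm
  have hone : ∀ L n z, n ≤ m L → z < b ^ n →
      ∫⁻ ω, ENNReal.ofReal (w L) * (∫⁻ ξ in Bl L, ENNReal.ofReal (Y n z ω ξ)) ∂Pr ≤
        ENNReal.ofReal (w L * (K L * V L)) := by
    intro L n z hn hz
    rw [lintegral_const_mul _ (hin L n z), ENNReal.ofReal_mul (hw L)]
    refine mul_le_mul_right ?_ _
    rw [lintegral_lintegral_swap (hYm n z).aemeasurable]
    calc ∫⁻ ξ in Bl L, ∫⁻ ω, ENNReal.ofReal (Y n z ω ξ) ∂Pr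
        ≤ ∫⁻ ξ in Bl L, ENNReal.ofReal (K L) := by
          refine setLIntegral_mono' (hB L) fun ξ hξ => ?_
          have hm : Measurable (fun ω => Y n z ω ξ) :=
            (hY n z).comp (measurable_id.prodMk measurable_const)
          have hi : Integrable (fun ω => Y n z ω ξ) Pr := by
            refine Integrable.of_bound hm.aestronglyMeasurable 1 (Filter.Eventually.of_forall ?_)
            intro ω
            rw [Real.norm_eq_abs, abs_of_nonneg (h0 n z ω ξ)]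
            exact h1 n z ω ξ
          rw [← ofReal_integral_eq_lintegral_ofReal hi
            (Filter.Eventually.of_forall fun ω => h0 n z ω ξ)]
          exact ENNReal.ofReal_le_ofReal (hK L n z hn hz ξ hξ)
      _ = ENNReal.ofReal (K L) * volume (Bl L) := by
          rw [setLIntegral_const]
      _ ≤ ENNReal.ofReal (K L) * ENNReal.ofReal (V L) := mul_le_mul_right (hV L) _
      _ = ENNReal.ofReal (K L * V L) := (ENNReal.ofReal_mul (hK0 L)).symm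
  have hSint : ∫⁻ ω, S ω ∂Pr ≠ ⊤ := by
    have e1 : ∫⁻ ω, S ω ∂Pr = ∑' L, ∑ n ∈ Finset.range (m L + 1), ∑ z ∈ Finset.range (b ^ n),
        ∫⁻ ω, ENNReal.ofReal (w L) * (∫⁻ ξ in Bl L, ENNReal.ofReal (Y n z ω ξ)) ∂Pr := by
      rw [hS, lintegral_tsum fun L => (hLm L).aemeasurable]
      refine tsum_congr fun L => ?_
      rw [lintegral_finsetSum _ fun n _ => Finset.measurable_fun_sum _ fun z _ => hterm L n z]
      refine Finset.sum_congr rfl fun n _ => ?_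
      rw [lintegral_finsetSum _ fun z _ => hterm L n z]
    rw [e1]
    refine ne_top_of_le_ne_top hsum.tsum_ofReal_ne_top (ENNReal.tsum_le_tsum fun L => ?_)
    have hx0 : 0 ≤ w L * (K L * V L) := mul_nonneg (hw L) (mul_nonneg (hK0 L) (hV0 L))
    calc ∑ n ∈ Finset.range (m L + 1), ∑ z ∈ Finset.range (b ^ n),
        ∫⁻ ω, ENNReal.ofReal (w L) * (∫⁻ ξ in Bl L, ENNReal.ofReal (Y n z ω ξ)) ∂Pr
        ≤ ∑ n ∈ Finset.range (m L + 1), ∑ z ∈ Finset.range (b ^ n),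
          ENNReal.ofReal (w L * (K L * V L)) := by
          refine Finset.sum_le_sum fun n hn => Finset.sum_le_sum fun z hz => ?_
          exact hone L n z (by have := Finset.mem_range.1 hn; omega) (Finset.mem_range.1 hz)
      _ = ∑ n ∈ Finset.range (m L + 1), ((b ^ n : ℕ) : ℝ≥0∞) *
          ENNReal.ofReal (w L * (K L * V L)) := by
          refine Finset.sum_congr rfl fun n _ => ?_
          rw [Finset.sum_const, Finset.card_range, nsmul_eq_mul]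
      _ ≤ ∑ n ∈ Finset.range (m L + 1), ((b ^ (m L) : ℕ) : ℝ≥0∞) *
          ENNReal.ofReal (w L * (K L * V L)) := by
          refine Finset.sum_le_sum fun n hn => mul_le_mul_left ?_ _
          have : b ^ n ≤ b ^ (m L) := Nat.pow_le_pow_right hb
            (by have := Finset.mem_range.1 hn; omega)
          exact_mod_cast this
      _ = ENNReal.ofReal ((((m L : ℝ) + 1) * (b : ℝ) ^ (m L)) * (w L * (K L * V L))) := by
          rw [Finset.sum_const, Finset.card_range, nsmul_eq_mul, ← mul_assoc]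
          generalize w L * (K L * V L) = x at hx0 ⊢
          have e2 : ((m L : ℝ) + 1) * (b : ℝ) ^ (m L) = (((m L + 1) * b ^ (m L) : ℕ) : ℝ) := by
            push_cast
            ring
          rw [e2, ENNReal.ofReal_mul (Nat.cast_nonneg _), ENNReal.ofReal_natCast]
          push_cast
          ring
  filter_upwards [ae_lt_top hSm hSint] with ω hω
  refine ⟨(S ω).toReal, ENNReal.toReal_nonneg, ?_⟩
  intro L n z hn hz
  have h2 : ENNReal.ofReal (w L) * ∫⁻ ξ in Bl L, ENNReal.ofReal (Y n z ω ξ) ≤ S ω := by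
    refine le_trans ?_ (ENNReal.le_tsum L)
    refine le_trans ?_ (Finset.single_le_sum (f := fun n => ∑ z ∈ Finset.range (b ^ n),
      ENNReal.ofReal (w L) * ∫⁻ ξ in Bl L, ENNReal.ofReal (Y n z ω ξ))
      (fun _ _ => zero_le) (Finset.mem_range.2 (Nat.lt_succ_of_le hn)))
    exact Finset.single_le_sum (f := fun z =>
      ENNReal.ofReal (w L) * ∫⁻ ξ in Bl L, ENNReal.ofReal (Y n z ω ξ))
      (fun _ _ => zero_le) (Finset.mem_range.2 hz)
  have h3 := ENNReal.toReal_mono hω.ne h2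
  rw [ENNReal.toReal_mul, ENNReal.toReal_ofReal (hw L)] at h3
  have hmξ : Measurable (fun ξ => Y n z ω ξ) := (hY n z).comp (measurable_const.prodMk measurable_id)
  rw [integral_eq_lintegral_of_nonneg_ae (Filter.Eventually.of_forall fun ξ => h0 n z ω ξ)
    hmξ.aestronglyMeasurable]
  exact h3

/-- a pointwise inequality -/
lemma pt {y t : ℝ} {p : ℕ} (hp : 1 ≤ p) (ht : 0 < t) :
    y ^ 2 ≤ t + (t ^ (p - 1))⁻¹ * y ^ (2 * p) := by
  have h0 : 0 ≤ (t ^ (p - 1))⁻¹ * y ^ (2 * p) :=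
    mul_nonneg (by positivity) (by rw [pow_mul]; positivity)
  by_cases h : y ^ 2 ≤ t
  · linarith
  · push Not at h
    have h1 : t ^ (p - 1) ≤ (y ^ 2) ^ (p - 1) := pow_le_pow_left₀ ht.le h.le _
    have h2 : y ^ (2 * p) = y ^ 2 * (y ^ 2) ^ (p - 1) := by
      rw [← pow_succ', pow_mul]
      congr 1
      omega
    have h3 : y ^ 2 ≤ (t ^ (p - 1))⁻¹ * y ^ (2 * p) := by
      rw [h2, inv_mul_eq_div, le_div_iff₀ (by positivity)]
      exact mul_le_mul_of_nonneg_left h1 (by positivity)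
    linarith

lemma det (y : ℝ → ℝ) (Bl : Set ℝ) (V t : ℝ) (p : ℕ) (hp : 1 ≤ p) (ht : 0 < t)
    (hV0 : 0 ≤ V) (hV : volume Bl ≤ ENNReal.ofReal V) (hy : Measurable y)
    (h0 : ∀ ξ, 0 ≤ y ξ) (h1 : ∀ ξ, y ξ ≤ 1) :
    ∫ ξ in Bl, y ξ ^ 2 ≤ t * V + (t ^ (p - 1))⁻¹ * ∫ ξ in Bl, y ξ ^ (2 * p) := by
  have : IsFiniteMeasure (volume.restrict Bl) :=
    ⟨by rw [Measure.restrict_apply_univ]; exact lt_of_le_of_lt hV ENNReal.ofReal_lt_top⟩
  have hint : ∀ k : ℕ, Integrable (fun ξ => y ξ ^ k) (volume.restrict Bl) := by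
    intro k
    refine Integrable.of_bound (hy.pow_const k).aestronglyMeasurable 1
      (Filter.Eventually.of_forall fun ξ => ?_)
    rw [Real.norm_eq_abs, abs_of_nonneg (pow_nonneg (h0 ξ) k)]
    exact pow_le_one₀ (h0 ξ) (h1 ξ)
  have h2 : ∫ ξ in Bl, y ξ ^ 2 ≤ ∫ ξ in Bl, (t + (t ^ (p - 1))⁻¹ * y ξ ^ (2 * p)) := by
    refine integral_mono (hint 2) ((integrable_const t).add ((hint (2 * p)).const_mul _)) ?_
    intro ξ
    exact pt hp ht
  refine h2.trans ?_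
  rw [integral_add (integrable_const t) ((hint (2 * p)).const_mul _), integral_const_mul,
    integral_const, smul_eq_mul, measureReal_restrict_apply_univ]
  have h3 : volume.real Bl ≤ V := by
    have := ENNReal.toReal_mono ENNReal.ofReal_ne_top hV
    rwa [ENNReal.toReal_ofReal hV0] at this
  have h4 : volume.real Bl * t ≤ t * V := by
    rw [mul_comm]
    exact mul_le_mul_of_nonneg_left h3 ht.le
  linarith

lemma blk_meas (b : ℕ) (α : ℝ) (L : ℕ) : MeasurableSet (Blk b α L) := by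
  unfold Blk
  exact (measurableSet_le measurable_const continuous_abs.measurable).inter
    (measurableSet_le continuous_abs.measurable measurable_const)

lemma blk_vol (b : ℕ) (α : ℝ) (L : ℕ) :
    volume (Blk b α L) ≤ ENNReal.ofReal (2 * (b : ℝ) ^ (th α * (L + 1))) := by
  have h1 : Blk b α L ⊆ Icc (-((b : ℝ) ^ (th α * (L + 1)))) ((b : ℝ) ^ (th α * (L + 1))) := by
    intro ξ hξ
    exact abs_le.1 hξ.2
  refine (measure_mono h1).trans ?_
  rw [Real.volume_Icc]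
  exact ENNReal.ofReal_le_ofReal (by linarith)

lemma expo {b : ℝ} (hb : 0 < b) (α : ℝ) {p : ℕ} (hp : 1 ≤ p) (L : ℝ) :
    ((b ^ (-((et α + th α) * L))) ^ (p - 1))⁻¹ * b ^ (et α * L) *
      (b ^ (-((p : ℝ) * (2 - α) * L)) * b ^ (th α * (L + 1))) =
      b ^ (th α) * b ^ (-((p : ℝ) * et α * L)) := by
  rw [← Real.rpow_natCast, ← Real.rpow_mul hb.le, ← Real.rpow_neg hb.le, ← Real.rpow_add hb,
    ← Real.rpow_add hb, ← Real.rpow_add hb, ← Real.rpow_add hb, Nat.cast_sub hp]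
  congr 1
  unfold et th
  push_cast
  ring

lemma mLle {α : ℝ} (hα1 : α < 1) (hα : 0 < α) (L : ℕ) :
    (mL α L : ℝ) ≤ (th α + 1) / (1 - α) * (L + 1) + 1 := by
  unfold mL
  have h1 : 0 ≤ (th α + 1) * ((L : ℝ) + 1) / (1 - α) := by
    have : 0 < th α := by unfold th; linarith
    have : 0 < 1 - α := by linarith
    positivity
  have h2 := Nat.ceil_lt_add_one h1
  have h3 : (th α + 1) * ((L : ℝ) + 1) / (1 - α) = (th α + 1) / (1 - α) * (L + 1) := by ring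
  rw [h3] at h2
  rw [h3]
  exact h2.le

lemma geo {b : ℕ} (hb : 2 ≤ b) (L : ℕ) : (b : ℝ) ^ (-(L : ℝ)) ≤ (1 / 2 : ℝ) ^ L := by
  have hb2 : (2 : ℝ) ≤ b := by exact_mod_cast hb
  rw [Real.rpow_neg (by linarith), Real.rpow_natCast, one_div, inv_pow]
  exact inv_anti₀ (by positivity) (pow_le_pow_left₀ (by norm_num) hb2 L)

lemma summ {b : ℕ} {α : ℝ} (hb : 2 ≤ b) (hα : 0 < α) (hα1 : α < 1) {p : ℕ} (hp1 : 1 ≤ p)
    (hp : (th α + 1) / (1 - α) + 1 < p * et α) (C : ℝ) :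
    Summable (fun L : ℕ => (((mL α L : ℝ) + 1) * (b : ℝ) ^ (mL α L)) *
      ((((b : ℝ) ^ (-((et α + th α) * L))) ^ (p - 1))⁻¹ * (b : ℝ) ^ (et α * L) *
        ((|C| * ((L : ℝ) + 1) ^ (8 * p) * (b : ℝ) ^ (-((p : ℝ) * (2 - α) * L))) *
          (2 * (b : ℝ) ^ (th α * (L + 1)))))) := by
  have hb2 : (2 : ℝ) ≤ b := by exact_mod_cast hb
  have hb0 : (0 : ℝ) < b := by linarith
  have hb1 : (1 : ℝ) ≤ b := by linarith
  obtain ⟨β, hβ⟩ : ∃ β : ℝ, β = (th α + 1) / (1 - α) := ⟨_, rfl⟩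
  have hβ0 : 0 ≤ β := by
    have h1 : 0 < th α := by unfold th; linarith
    have h2 : 0 < 1 - α := by linarith
    rw [hβ]
    positivity
  rw [← hβ] at hp
  have hs : Summable (fun L : ℕ => ((β + 2) * (b : ℝ) ^ (β + 1) * (2 * |C| * (b : ℝ) ^ (th α))) *
      (2 * (((L + 1 : ℕ) : ℝ) ^ (8 * p + 1) * (1 / 2 : ℝ) ^ (L + 1)))) := by
    refine (Summable.mul_left 2 ?_).mul_left _
    exact (summable_nat_add_iff (f := fun L : ℕ => ((L : ℝ) ^ (8 * p + 1) * (1 / 2 : ℝ) ^ L)) 1).2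
      (summable_pow_mul_geometric_of_norm_lt_one (8 * p + 1) (by norm_num))
  refine Summable.of_nonneg_of_le (fun L => by positivity) (fun L => ?_) hs
  have e1 := expo hb0 α hp1 (L : ℝ)
  have e2 : (((b : ℝ) ^ (-((et α + th α) * L))) ^ (p - 1))⁻¹ * (b : ℝ) ^ (et α * L) *
        ((|C| * ((L : ℝ) + 1) ^ (8 * p) * (b : ℝ) ^ (-((p : ℝ) * (2 - α) * L))) *
          (2 * (b : ℝ) ^ (th α * (L + 1)))) =
      2 * |C| * ((L : ℝ) + 1) ^ (8 * p) * ((((b : ℝ) ^ (-((et α + th α) * L))) ^ (p - 1))⁻¹ *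
        (b : ℝ) ^ (et α * L) *
          ((b : ℝ) ^ (-((p : ℝ) * (2 - α) * L)) * (b : ℝ) ^ (th α * (L + 1)))) := by ring
  rw [e2, e1]
  have h1 : (mL α L : ℝ) ≤ β * (L + 1) + 1 := by
    rw [hβ]
    exact mLle hα1 hα L
  have hL0 : (0 : ℝ) ≤ L := Nat.cast_nonneg L
  have h2 : (mL α L : ℝ) + 1 ≤ (β + 2) * ((L : ℝ) + 1) := by
    have : (β + 2) * ((L : ℝ) + 1) = β * (L + 1) + 2 * L + 2 := by ring
    rw [this]
    linarith
  have h3 : (b : ℝ) ^ (mL α L) * (b : ℝ) ^ (-((p : ℝ) * et α * L)) ≤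
      (b : ℝ) ^ (β + 1) * (1 / 2 : ℝ) ^ L := by
    calc (b : ℝ) ^ (mL α L) * (b : ℝ) ^ (-((p : ℝ) * et α * L))
        = (b : ℝ) ^ ((mL α L : ℝ) + -((p : ℝ) * et α * L)) := by
          rw [← Real.rpow_natCast, ← Real.rpow_add hb0]
      _ ≤ (b : ℝ) ^ ((β + 1) + -(L : ℝ)) := by
          apply Real.rpow_le_rpow_of_exponent_le hb1
          have h4 : (β + 1) * L ≤ (p : ℝ) * et α * L := mul_le_mul_of_nonneg_right hp.le hL0
          have h5 : (β + 1) * (L : ℝ) = β * L + L := by ring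
          have h6 : β * ((L : ℝ) + 1) = β * L + β := by ring
          rw [h5] at h4
          rw [h6] at h1
          linarith
      _ = (b : ℝ) ^ (β + 1) * (b : ℝ) ^ (-(L : ℝ)) := Real.rpow_add hb0 _ _
      _ ≤ (b : ℝ) ^ (β + 1) * (1 / 2 : ℝ) ^ L :=
          mul_le_mul_of_nonneg_left (geo hb L) (Real.rpow_pos_of_pos hb0 _).le
  have hC0 : 0 ≤ |C| := abs_nonneg C
  have ht0 : 0 < (b : ℝ) ^ (th α) := Real.rpow_pos_of_pos hb0 _
  have hm0 : (0 : ℝ) ≤ (mL α L : ℝ) + 1 := by positivity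
  calc (((mL α L : ℝ) + 1) * (b : ℝ) ^ (mL α L)) *
        (2 * |C| * ((L : ℝ) + 1) ^ (8 * p) * ((b : ℝ) ^ (th α) * (b : ℝ) ^ (-((p : ℝ) * et α * L))))
      = ((mL α L : ℝ) + 1) * ((b : ℝ) ^ (mL α L) * (b : ℝ) ^ (-((p : ℝ) * et α * L))) *
        (2 * |C| * (b : ℝ) ^ (th α) * ((L : ℝ) + 1) ^ (8 * p)) := by ring
    _ ≤ ((β + 2) * ((L : ℝ) + 1)) * ((b : ℝ) ^ (β + 1) * (1 / 2 : ℝ) ^ L) *
        (2 * |C| * (b : ℝ) ^ (th α) * ((L : ℝ) + 1) ^ (8 * p)) := by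
        refine mul_le_mul_of_nonneg_right ?_ (by positivity)
        exact mul_le_mul h2 h3 (by positivity) (by positivity)
    _ = ((β + 2) * (b : ℝ) ^ (β + 1) * (2 * |C| * (b : ℝ) ^ (th α))) *
      (2 * (((L + 1 : ℕ) : ℝ) ^ (8 * p + 1) * (1 / 2 : ℝ) ^ (L + 1))) := by
        push_cast
        rw [pow_succ ((L : ℝ) + 1) (8 * p), pow_succ (1 / 2 : ℝ) L]
        ring

lemma fin1 {b : ℕ} {α : ℝ} (hb0 : (0 : ℝ) < b) {p : ℕ} (hp1 : 1 ≤ p) (G : ℝ → ℝ) (n z L : ℕ)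
    {S : ℝ} (hmξ : Measurable (fun ξ => ‖nuHat b α G n z ξ‖))
    (hS' : (((b : ℝ) ^ (-((et α + th α) * (L : ℝ)))) ^ (p - 1))⁻¹ * (b : ℝ) ^ (et α * L) *
      ∫ ξ in Blk b α L, ‖nuHat b α G n z ξ‖ ^ (2 * p) ≤ S) :
    ∫ ξ in Blk b α L, ‖nuHat b α G n z ξ‖ ^ 2 ≤
      (2 * (b : ℝ) ^ (th α) + S) * (b : ℝ) ^ (-(et α * L)) := by
  have ht0 : 0 < (b : ℝ) ^ (-((et α + th α) * (L : ℝ))) := Real.rpow_pos_of_pos hb0 _
  have hd := det (fun ξ => ‖nuHat b α G n z ξ‖) (Blk b α L)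
    (2 * (b : ℝ) ^ (th α * (L + 1))) ((b : ℝ) ^ (-((et α + th α) * (L : ℝ)))) p hp1 ht0
    (by positivity) (blk_vol b α L) hmξ (fun ξ => norm_nonneg _) (fun ξ => nu_le _ _ _ _ _ _)
  refine hd.trans ?_
  have e1 : (b : ℝ) ^ (-((et α + th α) * (L : ℝ))) * (2 * (b : ℝ) ^ (th α * (L + 1))) =
      2 * (b : ℝ) ^ (th α) * (b : ℝ) ^ (-(et α * L)) := by
    have : (b : ℝ) ^ (-((et α + th α) * (L : ℝ))) * (b : ℝ) ^ (th α * (L + 1)) =
        (b : ℝ) ^ (th α) * (b : ℝ) ^ (-(et α * L)) := by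
      rw [← Real.rpow_add hb0, ← Real.rpow_add hb0]
      congr 1
      ring
    calc _ = 2 * ((b : ℝ) ^ (-((et α + th α) * (L : ℝ))) * (b : ℝ) ^ (th α * (L + 1))) := by ring
      _ = _ := by rw [this]; ring
  rw [e1]
  have e3 : (b : ℝ) ^ (et α * L) * (b : ℝ) ^ (-(et α * L)) = 1 := by
    rw [← Real.rpow_add hb0, add_neg_cancel, Real.rpow_zero]
  have hbη : 0 ≤ (b : ℝ) ^ (-(et α * L)) := (Real.rpow_pos_of_pos hb0 _).le
  have h6 := mul_le_mul_of_nonneg_right hS' hbη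
  have e4 : ∀ I : ℝ, (((b : ℝ) ^ (-((et α + th α) * (L : ℝ)))) ^ (p - 1))⁻¹ *
      (b : ℝ) ^ (et α * L) * I * (b : ℝ) ^ (-(et α * L)) =
      (((b : ℝ) ^ (-((et α + th α) * (L : ℝ)))) ^ (p - 1))⁻¹ * I := by
    intro I
    calc _ = (((b : ℝ) ^ (-((et α + th α) * (L : ℝ)))) ^ (p - 1))⁻¹ * I *
        ((b : ℝ) ^ (et α * L) * (b : ℝ) ^ (-(et α * L))) := by ring
      _ = _ := by rw [e3, mul_one]
  rw [e4] at h6
  rw [add_mul (2 * (b : ℝ) ^ (th α)) S]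
  exact add_le_add le_rfl h6

/-- the bound for one block -/
def QQ (b : ℕ) (α : ℝ) (p N : ℕ) (g : ℝ → ℝ) (ω : Om) (S : ℝ) : Prop :=
  ∀ L n z : ℕ, n ≤ mL α L → z < b ^ n →
    (((b : ℝ) ^ (-((et α + th α) * (L : ℝ)))) ^ (p - 1))⁻¹ * (b : ℝ) ^ (et α * L) *
      ∫ ξ in Blk b α L, ‖nuHat b α (fun x => g x + Phi b α N ω x) n z ξ‖ ^ (2 * p) ≤ S

lemma prob1 (hC : S_CONTF) {b : ℕ} {α : ℝ} (hb : 2 ≤ b) (hα : 0 < α) (hα1 : α < 1) {p : ℕ}
    (hp1 : 1 ≤ p) (hp : (th α + 1) / (1 - α) + 1 < p * et α) (N : ℕ) (C : ℝ) (g : ℝ → ℝ)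
    (hg : LipPer g)
    (hNC : ∀ L n z : ℕ, n ≤ mL α L → z < b ^ n → ∀ ξ : ℝ, (b : ℝ) ^ (th α * L) ≤ |ξ| →
      ∫ ω : Om, ‖nuHat b α (fun x => g x + Phi b α N ω x) n z ξ‖ ^ (2 * p) ∂Pr ≤
        C * ((L : ℝ) + 1) ^ (8 * p) * (b : ℝ) ^ (-((p : ℝ) * (2 - α) * L))) :
    ∀ᵐ ω ∂Pr, ∃ S : ℝ, 0 ≤ S ∧ QQ b α p N g ω S := by
  have hb2 : (2 : ℝ) ≤ b := by exact_mod_cast hb
  have hb0 : (0 : ℝ) < b := by linarith
  have hms : ∀ n z, Measurable (fun q : Om × ℝ =>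
      ‖nuHat b α (fun x => g x + Phi b α N q.1 x) n z q.2‖) := fun n z =>
    (meas_nu hC b α hb hα hα1 N n z g hg).norm.measurable
  have hK : ∀ L n z : ℕ, n ≤ mL α L → z < b ^ n → ∀ ξ ∈ Blk b α L,
      ∫ ω : Om, ‖nuHat b α (fun x => g x + Phi b α N ω x) n z ξ‖ ^ (2 * p) ∂Pr ≤
        |C| * ((L : ℝ) + 1) ^ (8 * p) * (b : ℝ) ^ (-((p : ℝ) * (2 - α) * L)) := by
    intro L n z hn hz ξ hξ
    refine (hNC L n z hn hz ξ hξ.1).trans ?_
    have h1 : C ≤ |C| := le_abs_self C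
    have h2 : 0 ≤ ((L : ℝ) + 1) ^ (8 * p) := by positivity
    exact mul_le_mul_of_nonneg_right (mul_le_mul_of_nonneg_right h1 h2)
      (Real.rpow_pos_of_pos hb0 _).le
  exact absL b (mL α)
    (fun n z ω ξ => ‖nuHat b α (fun x => g x + Phi b α N ω x) n z ξ‖ ^ (2 * p)) (Blk b α)
    (fun L => 2 * (b : ℝ) ^ (th α * (L + 1)))
    (fun L => |C| * ((L : ℝ) + 1) ^ (8 * p) * (b : ℝ) ^ (-((p : ℝ) * (2 - α) * L)))
    (fun L => (((b : ℝ) ^ (-((et α + th α) * L))) ^ (p - 1))⁻¹ * (b : ℝ) ^ (et α * L))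
    (blk_meas b α) (blk_vol b α) (fun n z => (hms n z).pow_const _)
    (fun n z ω ξ => by positivity) (fun n z ω ξ => pow_le_one₀ (norm_nonneg _) (nu_le _ _ _ _ _ _))
    (fun L => by positivity) (fun L => by positivity) (by omega) hK
    (summ hb hα hα1 hp1 hp C) (fun L => by positivity)

lemma exP {α : ℝ} (hα1 : α < 1) :
    ∃ p : ℕ, 1 ≤ p ∧ (th α + 1) / (1 - α) + 1 < p * et α := by
  have het : 0 < et α := by unfold et; linarith
  generalize (th α + 1) / (1 - α) + 1 = x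
  obtain ⟨k, hk⟩ := exists_nat_gt (x / et α)
  refine ⟨k + 1, by omega, ?_⟩
  rw [div_lt_iff₀ het] at hk
  push_cast
  linarith

lemma abst {f : Om → ℝ → ℝ} (hf : Measurable (fun q : Om × ℝ => f q.1 q.2)) (ω : Om) :
    Measurable (fun ξ => f ω ξ) :=
  hf.comp (measurable_const.prodMk measurable_id)

lemma msec (hC : S_CONTF) {b : ℕ} {α : ℝ} (hb : 2 ≤ b) (hα : 0 < α) (hα1 : α < 1) (N n z : ℕ)
    (g : ℝ → ℝ) (hg : LipPer g) (ω : Om) :
    Measurable (fun ξ : ℝ => ‖nuHat b α (fun x => g x + Phi b α N ω x) n z ξ‖) :=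
  abst (f := fun ω ξ => ‖nuHat b α (fun x => g x + Phi b α N ω x) n z ξ‖)
    (meas_nu hC b α hb hα hα1 N n z g hg).norm.measurable ω

theorem prob : S_MOM → S_CONTF → S_PROB := by
  intro hM hC b α hb hα hα1
  have hb0 : (0 : ℝ) < b := by
    have : 0 < b := by omega
    exact_mod_cast this
  obtain ⟨p, hp1, hp⟩ := exP hα1
  obtain ⟨N, C, hNC⟩ := hM b α hb hα hα1 p hp1
  refine ⟨N, fun g hg => ?_⟩
  have h := prob1 hC hb hα hα1 hp1 hp N C g hg (hNC g hg)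
  refine h.mono fun ω hω => ?_
  obtain ⟨S, hS0, hS⟩ := hω
  refine ⟨2 * (b : ℝ) ^ (th α) + S, ?_⟩
  intro L n z hn hz
  exact fin1 hb0 hp1 (fun x => g x + Phi b α N ω x) n z L (msec hC hb hα hα1 N n z g hg ω)
    (hS L n z hn hz)

end Pool.Agent.W310.WL
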